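import Mathlib

/-!
# MP_441cc7_al, Q1: proved

Any `k` of the polynomials `P_i = ∏_{j=1}^{k-1} (x - t_{i+j})` are linearly independent.
-/

namespace Pool.Agent.Results.MP_441cc7_al.Independent

open Polynomial

/-- The polynomial `P_i(x) = ∏_{j=1}^{k-1} (x - t_{i+j})`. -/
noncomputable def P (k : ℕ) (t : ℕ → ℝ) (i : ℕ) : ℝ[X] :=
  ∏ j ∈ Finset.Icc 1 (k - 1), (X - C (t (i + j)))

theorem P_eq (k : ℕ) (t : ℕ → ℝ) (i : ℕ) :
    P (k + 1) t i = ∏ j ∈ Finset.range k, (X - C (t (i + 1 + j))) := by
  unfold P
  rw [Nat.add_sub_cancel]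
  refine Finset.prod_nbij' (fun j => j - 1) (fun j => j + 1) ?_ ?_ ?_ ?_ ?_
  · intro j hj
    rw [Finset.mem_Icc] at hj
    rw [Finset.mem_range]
    omega
  · intro j hj
    rw [Finset.mem_range] at hj
    rw [Finset.mem_Icc]
    omega
  · intro j hj
    rw [Finset.mem_Icc] at hj
    show j - 1 + 1 = j
    omega
  · intro j _
    rfl
  · intro j hj
    rw [Finset.mem_Icc] at hj
    show (X - C (t (i + j)) : ℝ[X]) = X - C (t (i + 1 + (j - 1)))
    rw [show i + 1 + (j - 1) = i + j by omega]

theorem P_monic (k : ℕ) (t : ℕ → ℝ) (i : ℕ) : (P k t i).Monic :=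
  monic_prod_of_monic _ _ fun j _ => monic_X_sub_C _

theorem P_natDegree (k : ℕ) (t : ℕ → ℝ) (i : ℕ) : (P k t i).natDegree = k - 1 := by
  unfold P
  rw [natDegree_prod_of_monic _ _ fun _ _ => monic_X_sub_C _]
  simp

/-- The difference of two consecutive polynomials. -/
theorem P_sub (k : ℕ) (t : ℕ → ℝ) (i : ℕ) :
    P (k + 2) t (i + 1) - P (k + 2) t i =
      C (t (i + 1) - t (i + k + 2)) * P (k + 1) t (i + 1) := by
  rw [P_eq, P_eq, P_eq, Finset.prod_range_succ, Finset.prod_range_succ']
  have h : ∀ j, t (i + 1 + (j + 1)) = t (i + 1 + 1 + j) := fun j => by congr 1; ring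
  simp only [h]
  rw [show i + 1 + 1 + k = i + k + 2 by ring, show i + 1 + 0 = i + 1 by ring, C_sub]
  ring

/-- There are no `k + 1` weakly alternating values. -/
theorem no_alt (t : ℕ → ℝ) (ht : ∀ m n, 1 ≤ m → m < n → t m < t n) (L : ℝ[X] →ₗ[ℝ] ℝ) (k : ℕ) :
    (∃ p ∈ degreeLT ℝ (k + 1), L p ≠ 0) → ∀ (ε : ℝ) (_ : ε ≠ 0) (f : ℕ → ℕ),
      (∀ j < k + 1, f j < f (j + 1)) →
      (∀ j ≤ k + 1, 0 ≤ ε * (-1) ^ j * L (P (k + 1) t (f j))) → False := by
  induction k with
  | zero =>
    rintro ⟨p, hp, hL⟩ ε hε f hf halt
    have h0 := halt 0 (by omega)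
    have h1 := halt 1 le_rfl
    have hP : ∀ i, P 1 t i = 1 := by
      intro i
      simp [P]
    rw [hP] at h0 h1
    have hL1 : L 1 = 0 := by
      have h2 : ε * L 1 = 0 := by
        simp only [pow_zero, mul_one, pow_one] at h0 h1
        linarith
      exact (mul_eq_zero.1 h2).resolve_left hε
    apply hL
    rw [mem_degreeLT, degree_lt_iff_coeff_zero] at hp
    have hp' : p = C (p.coeff 0) := by
      ext m
      rw [coeff_C]
      split_ifs with hm
      · rw [hm]
      · exact hp m (by omega)
    rw [hp', ← mul_one (C (p.coeff 0)), ← smul_eq_C_mul, map_smul, hL1, smul_zero]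
  | succ k ih =>
    rintro ⟨p, hp, hL⟩ ε hε f hf halt
    by_cases hex : ∃ p ∈ degreeLT ℝ (k + 1), L p ≠ 0
    · -- discrete Rolle
      have hstep : ∀ j < k + 2, ∃ i, f j ≤ i ∧ i < f (j + 1) ∧
          0 ≤ ε * (-1) ^ j * L (P (k + 1) t (i + 1)) := by
        intro j hj
        by_contra hcon
        push Not at hcon
        have hlt := hf j hj
        have h1 := halt j (by omega)
        have h2 := halt (j + 1) (by omega)
        -- the sequence is strictly monotone in the wrong direction
        have hmono : ∀ m, f j < m → m ≤ f (j + 1) →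
            ε * (-1) ^ j * L (P (k + 1 + 1) t (f j)) <
              ε * (-1) ^ j * L (P (k + 1 + 1) t m) := by
          intro m
          induction m with
          | zero => intro h; omega
          | succ m ihm =>
            intro hm1 hm2
            have h3 := hcon m (by omega) (by omega)
            have h4 := P_sub k t m
            have h5 : L (P (k + 1 + 1) t (m + 1)) - L (P (k + 1 + 1) t m) =
                (t (m + 1) - t (m + k + 2)) * L (P (k + 1) t (m + 1)) := by
              rw [← map_sub, h4, ← smul_eq_C_mul, map_smul, smul_eq_mul]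
            have h6 : t (m + 1) < t (m + k + 2) := ht _ _ (by omega) (by omega)
            have h7 : 0 < (t (m + 1) - t (m + k + 2)) * (ε * (-1) ^ j * L (P (k + 1) t (m + 1))) :=
              mul_pos_of_neg_of_neg (by linarith) h3
            have h8 : ε * (-1) ^ j * L (P (k + 1 + 1) t m) <
                ε * (-1) ^ j * L (P (k + 1 + 1) t (m + 1)) := by
              have h9 : ε * (-1) ^ j * L (P (k + 1 + 1) t (m + 1)) -
                  ε * (-1) ^ j * L (P (k + 1 + 1) t m) =
                  (t (m + 1) - t (m + k + 2)) * (ε * (-1) ^ j * L (P (k + 1) t (m + 1))) := by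
                rw [← mul_sub, h5]
                ring
              linarith
            rcases Nat.lt_or_ge (f j) m with h10 | h10
            · exact (ihm h10 (by omega)).trans h8
            · have h11 : f j = m := by omega
              rw [h11]
              exact h8
        have h3 := hmono (f (j + 1)) hlt le_rfl
        rw [pow_succ] at h2
        linarith
      choose! g hg1 hg2 hg3 using hstep
      refine ih hex ε hε (fun j => g j + 1) ?_ ?_
      · intro j hj
        have h1 := hg2 j (by omega)
        have h2 := hg1 (j + 1) (by omega)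
        show g j + 1 < g (j + 1) + 1
        omega
      · intro j hj
        exact hg3 j (by omega)
    · push Not at hex
      -- all values are equal to a nonzero constant
      have hconst : ∀ i, L (P (k + 1 + 1) t i) = L (X ^ (k + 1)) := by
        intro i
        have h1 : P (k + 1 + 1) t i - X ^ (k + 1) ∈ degreeLT ℝ (k + 1) := by
          rw [mem_degreeLT]
          have h2 : (P (k + 1 + 1) t i).degree = (k + 1 : ℕ) := by
            rw [degree_eq_natDegree (P_monic _ _ _).ne_zero, P_natDegree]
            rfl
          have h3 := degree_sub_lt_left (p := P (k + 1 + 1) t i) (q := X ^ (k + 1))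
            (by rw [h2, degree_X_pow]) (P_monic _ _ _).ne_zero
            (by rw [(P_monic _ _ _).leadingCoeff, leadingCoeff_X_pow])
          rwa [h2] at h3
        have h2 := hex _ h1
        rw [map_sub, sub_eq_zero] at h2
        exact h2
      have h0 := halt 0 (by omega)
      have h1 := halt 1 (by omega)
      rw [hconst] at h0 h1
      have hX : L (X ^ (k + 1)) = 0 := by
        have h2 : ε * L (X ^ (k + 1)) = 0 := by
          simp only [pow_zero, mul_one, pow_one] at h0 h1
          linarith
        exact (mul_eq_zero.1 h2).resolve_left hε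
      apply hL
      rw [mem_degreeLT] at hp
      have hp1 : p - C (p.coeff (k + 1)) * X ^ (k + 1) ∈ degreeLT ℝ (k + 1) := by
        rw [mem_degreeLT, degree_lt_iff_coeff_zero]
        intro m hm
        rw [coeff_sub, coeff_C_mul, coeff_X_pow]
        by_cases hmk : m = k + 1
        · subst hmk
          simp
        · rw [if_neg hmk, mul_zero, sub_zero]
          apply coeff_eq_zero_of_degree_lt
          refine hp.trans_le ?_
          exact_mod_cast (by omega : k + 1 + 1 ≤ m)
      have h2 := hex _ hp1
      rw [map_sub, ← smul_eq_C_mul, map_smul, hX, smul_zero, sub_zero] at h2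
      exact h2

/-- For every `k ≥ 2`, every strictly increasing real sequence `t_1 < t_2 < ...` and every choice
of indices `0 ≤ i_1 < ... < i_k` the polynomials `P_{i_1}, ..., P_{i_k}` are linearly
independent over `ℝ`. -/
theorem result : ∀ k : ℕ, 2 ≤ k → ∀ t : ℕ → ℝ, (∀ m n, 1 ≤ m → m < n → t m < t n) →
    ∀ i : Fin k → ℕ, StrictMono i → LinearIndependent ℝ (fun l => P k t (i l)) := by
  intro k hk t ht i hi
  obtain ⟨k, rfl⟩ : ∃ m, k = m + 1 := ⟨k - 1, by omega⟩
  have hmem : ∀ l, P (k + 1) t (i l) ∈ degreeLT ℝ (k + 1) := by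
    intro l
    rw [mem_degreeLT, degree_eq_natDegree (P_monic _ _ _).ne_zero, P_natDegree]
    exact_mod_cast (by omega : k + 1 - 1 < k + 1)
  -- it is enough to work in the space of polynomials of small degree
  let v : Fin (k + 1) → degreeLT ℝ (k + 1) := fun l => ⟨P (k + 1) t (i l), hmem l⟩
  have hv : LinearIndependent ℝ v := by
    apply linearIndependent_of_top_le_span_of_card_eq_finrank
    · by_contra hcon
      have hlt : Submodule.span ℝ (Set.range v) < ⊤ :=
        lt_top_iff_ne_top.2 fun h => hcon (by rw [h])
      obtain ⟨L0, hL0, hle⟩ := Submodule.exists_le_ker_of_lt_top _ hlt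
      obtain ⟨L, hL⟩ := LinearMap.exists_extend L0
      have hLval : ∀ q : degreeLT ℝ (k + 1), L q.1 = L0 q := fun q =>
        congrArg (fun f => f q) hL
      have hzero : ∀ l, L (P (k + 1) t (i l)) = 0 := by
        intro l
        have h1 : v l ∈ Submodule.span ℝ (Set.range v) := Submodule.subset_span ⟨l, rfl⟩
        have h2 := hle h1
        rw [LinearMap.mem_ker, ← hLval] at h2
        exact h2
      have hne : ∃ p ∈ degreeLT ℝ (k + 1), L p ≠ 0 := by
        by_contra hcon
        push Not at hcon
        apply hL0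
        apply LinearMap.ext
        intro q
        rw [← hLval, hcon q.1 q.2]
        rfl
      -- the indices
      let f : ℕ → ℕ := fun j => if h : j < k + 1 then i ⟨j, h⟩ else i (Fin.last k) + 1
      have hf : ∀ j < k + 1, f j < f (j + 1) := by
        intro j hj
        simp only [f, dif_pos hj]
        split_ifs with h
        · exact hi (Fin.mk_lt_mk.2 (Nat.lt_succ_self j))
        · have : (⟨j, hj⟩ : Fin (k + 1)) = Fin.last k := Fin.ext (by simp; omega)
          rw [this]
          exact Nat.lt_succ_self _
      have hfz : ∀ j < k + 1, L (P (k + 1) t (f j)) = 0 := by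
        intro j hj
        simp only [f, dif_pos hj]
        exact hzero _
      obtain ⟨ε, hε, hs⟩ : ∃ ε : ℝ, ε ≠ 0 ∧
          0 ≤ ε * (-1) ^ (k + 1) * L (P (k + 1) t (f (k + 1))) := by
        rcases le_total 0 ((-1) ^ (k + 1) * L (P (k + 1) t (f (k + 1)))) with h | h
        · exact ⟨1, one_ne_zero, by rw [one_mul]; exact h⟩
        · exact ⟨-1, by norm_num, by rw [mul_assoc]; linarith⟩
      refine no_alt t ht L k hne ε hε f hf ?_
      intro j hj
      rcases hj.lt_or_eq with h | h
      · rw [hfz j h, mul_zero]
      · rw [h]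
        exact hs
    · rw [Fintype.card_fin]
      have := (degreeLTEquiv ℝ (k + 1)).finrank_eq
      rw [this]
      simp
  exact hv.map' (Submodule.subtype _) (Submodule.ker_subtype _)

end Pool.Agent.Results.MP_441cc7_al.Independent
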